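import Pool.Agent.W96.CL.Stm

/-!
# Project CL: the matrix at `x = 0`, fusion at the angle `π / 3`, and the chain
-/

set_option autoImplicit false

namespace W96CL

namespace ZEROaux

theorem uu_sq : uu ^ 2 = uu - 1 := by
  have h3 : √3 * √3 = 3 := Real.mul_self_sqrt (by norm_num)
  apply Complex.ext
  · simp only [uu, sq, Complex.mul_re, Complex.sub_re, Complex.one_re]
    nlinarith
  · simp only [uu, sq, Complex.mul_im, Complex.sub_im, Complex.one_im]
    ring

theorem uu_inv : uu⁻¹ = 1 - uu := by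
  apply inv_eq_of_mul_eq_one_right
  linear_combination (-1 : ℂ) * uu_sq

variable {A : Type} [Ring A] [Algebra ℂ A] {e : ℕ → A} {N : ℕ}

theorem eXX (h : TL e N) {i : ℕ} (hi : i + 1 < N) (y : ℂ) :
    e i * XX e i y = (1 + y) • e i := by
  unfold XX
  rw [mul_add, mul_smul_comm, mul_smul_comm, mul_one, h.sq i hi, ← add_smul]
  congr 1
  unfold wF wT
  ring

theorem XXXX (h : TL e N) {i : ℕ} (hi : i + 1 < N) (a b : ℂ) :
    XX e i a * XX e i b = (wF a * wF b) • (1 : A) +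
      (wF a * wT b + wT a * wF b + wT a * wT b) • e i := by
  unfold XX
  simp only [add_mul, mul_add, smul_mul_smul_comm, one_mul, mul_one, h.sq i hi]
  module

theorem left_step (ht : S_trace) (h : TL e N) (x : ℂ) (i : ℕ) (L : List ℂ) (z z' : ℂ)
    (hi : i + L.length + 2 ≤ N) : e i * DD e x i (z :: z' :: L) =
      ((ph1 x z - tau x z) * (1 + x / z') * wF (x * z') +
        tau x z * (ph1 x z' - tau x z')) • (e i * BB e x (i + 1) L) +
      ((ph1 x z - tau x z) * (1 + x / z') * wT (x * z') + tau x z * tau x z') •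
        (e i * DD e x (i + 2) L) := by
  have hi' : i + 1 < N := by omega
  have hT := ht A e N h x i L (by omega)
  have h1 : e i * (XX e i (x / z') * BB e x (i + 1) L * XX e i (x * z')) =
      ((1 + x / z') * wF (x * z')) • (e i * BB e x (i + 1) L) +
        ((1 + x / z') * wT (x * z')) • (e i * DD e x (i + 2) L) := by
    rw [← mul_assoc, ← mul_assoc, eXX h hi', smul_mul_assoc, smul_mul_assoc]
    have h2 : e i * BB e x (i + 1) L * XX e i (x * z') =
        wF (x * z') • (e i * BB e x (i + 1) L) + wT (x * z') • (e i * DD e x (i + 2) L) := by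
      unfold XX
      rw [mul_add, mul_smul_comm, mul_smul_comm, mul_one, hT]
    rw [h2, smul_add, smul_smul, smul_smul]
  change e i * ((ph1 x z - tau x z) • (XX e i (x / z') * BB e x (i + 1) L * XX e i (x * z')) +
    tau x z • ((ph1 x z' - tau x z') • BB e x (i + 1) L + tau x z' • DD e x (i + 2) L)) = _
  rw [mul_add, mul_smul_comm, h1, mul_smul_comm, mul_add, mul_smul_comm, mul_smul_comm]
  module

theorem pair (h : TL e N) (x : ℂ) (i : ℕ) (z z' : ℂ) (hi : i + 1 < N) :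
    DD e x i [z, z'] = ((ph1 x z - tau x z) * (wF (x / z') * wF (x * z')) +
      tau x z * ((ph1 x z' - tau x z') + tau x z')) • (1 : A) +
      ((ph1 x z - tau x z) * (wF (x / z') * wT (x * z') + wT (x / z') * wF (x * z') +
        wT (x / z') * wT (x * z'))) • e i := by
  change (ph1 x z - tau x z) • (XX e i (x / z') * 1 * XX e i (x * z')) +
    tau x z • ((ph1 x z' - tau x z') • (1 : A) + tau x z' • (1 : A)) = _
  rw [mul_one, XXXX h hi]
  module

end ZEROaux

open ZEROaux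

theorem cl_zero (_hc : S_comm) (ht : S_trace) : S_zero := by
  intro A _ _ e N h i L z z' hi
  have huu := uu_sq
  have t0 : ∀ z : ℂ, tau 0 z = (1 - uu) ^ 2 := by
    intro z
    unfold tau wT
    rw [zero_div, zero_mul]
    ring
  have p0 : ∀ z : ℂ, ph1 0 z = 1 := by
    intro z
    unfold ph1
    rw [zero_div, zero_mul]
    ring
  have f0 : wF 0 = uu := by
    unfold wF
    ring
  have g0 : wT 0 = 1 - uu := by
    unfold wT
    ring
  constructor
  · rw [left_step ht h 0 i L z z' hi, t0, t0, p0, p0, zero_div, zero_mul, f0, g0]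
    have e1 : (1 - (1 - uu) ^ 2) * (1 + 0) * uu + (1 - uu) ^ 2 * (1 - (1 - uu) ^ 2) = 0 := by
      linear_combination ((2 * uu ^ 1) + (-1 * uu ^ 2)) * huu
    have e2 : (1 - (1 - uu) ^ 2) * (1 + 0) * (1 - uu) + (1 - uu) ^ 2 * (1 - uu) ^ 2 = 1 := by
      linear_combination ((-2 * uu ^ 1) + (1 * uu ^ 2)) * huu
    rw [e1, e2, zero_smul, one_smul, zero_add]
  · rw [pair h 0 i z z' (by omega), t0, t0, p0, p0, zero_div, zero_mul, f0, g0]
    have e1 : (1 - (1 - uu) ^ 2) * (uu * uu) + (1 - uu) ^ 2 * (1 - (1 - uu) ^ 2 + (1 - uu) ^ 2) =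
        -2 := by
      linear_combination ((3) + (1 * uu ^ 1) + (-1 * uu ^ 2)) * huu
    have e2 : (1 - (1 - uu) ^ 2) * (uu * (1 - uu) + (1 - uu) * uu + (1 - uu) * (1 - uu)) = 3 := by
      linear_combination ((-3) + (-1 * uu ^ 1) + (1 * uu ^ 2)) * huu
    rw [e1, e2]

theorem cl_fuse (_hc : S_comm) (ht : S_trace) : S_fuse := by
  intro A _ _ e N h x i L hi
  have huu := uu_sq
  have d1 : x / uu = x * (1 - uu) := by rw [div_eq_mul_inv, uu_inv]
  have d2 : x / uu⁻¹ = x * uu := by rw [div_inv_eq_mul]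
  have d3 : x * uu⁻¹ = x * (1 - uu) := by rw [uu_inv]
  have hT : tau x uu = ((1 - uu) + uu * (x * (1 - uu))) * ((1 - uu) + uu * (x * uu)) := by
    unfold tau wT
    rw [d1]
  have hT' : tau x uu⁻¹ = ((1 - uu) + uu * (x * (1 - uu))) * ((1 - uu) + uu * (x * uu)) := by
    unfold tau wT
    rw [d2, d3]
    ring
  have hP : ph1 x uu = (1 + x * (1 - uu)) * (1 + x * uu) := by
    unfold ph1
    rw [d1]
  have hP' : ph1 x uu⁻¹ = (1 + x * (1 - uu)) * (1 + x * uu) := by
    unfold ph1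
    rw [d2, d3]
    ring
  constructor
  · rw [left_step ht h x i L uu uu⁻¹ hi, hT, hT', hP, hP', d2, d3]
    unfold wF wT
    have e1 : ((1 + x * (1 - uu)) * (1 + x * uu) - ((1 - uu) + uu * (x * (1 - uu))) *
        ((1 - uu) + uu * (x * uu))) * (1 + x * uu) * (uu + (1 - uu) * (x * (1 - uu))) +
        ((1 - uu) + uu * (x * (1 - uu))) * ((1 - uu) + uu * (x * uu)) *
        ((1 + x * (1 - uu)) * (1 + x * uu) - ((1 - uu) + uu * (x * (1 - uu))) *
        ((1 - uu) + uu * (x * uu))) = 0 := by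
      linear_combination ((1 * x ^ 1) + (1 * x ^ 2) + (2 * uu ^ 1) + (1 * uu ^ 1 * x ^ 1)
         + (2 * uu ^ 1 * x ^ 3) + (-1 * uu ^ 2) + (2 * uu ^ 2 * x ^ 2)
         + (-3 * uu ^ 2 * x ^ 3) + (1 * uu ^ 2 * x ^ 4) + (-4 * uu ^ 3 * x ^ 2)
         + (1 * uu ^ 3 * x ^ 3) + (-2 * uu ^ 3 * x ^ 4) + (2 * uu ^ 4 * x ^ 2)
         + (2 * uu ^ 5 * x ^ 4) + (-1 * uu ^ 6 * x ^ 4)) * huu
    have e2 : ((1 + x * (1 - uu)) * (1 + x * uu) - ((1 - uu) + uu * (x * (1 - uu))) *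
        ((1 - uu) + uu * (x * uu))) * (1 + x * uu) * (1 - uu + uu * (x * (1 - uu))) +
        ((1 - uu) + uu * (x * (1 - uu))) * ((1 - uu) + uu * (x * uu)) *
        (((1 - uu) + uu * (x * (1 - uu))) * ((1 - uu) + uu * (x * uu))) =
        (1 + x + x ^ 2) ^ 2 := by
      linear_combination ((-1 * x ^ 1) + (-3 * x ^ 2) + (-2 * x ^ 3) + (-1 * x ^ 4) + (-2 * uu ^ 1)
         + (-1 * uu ^ 1 * x ^ 1) + (-2 * uu ^ 1 * x ^ 3) + (-1 * uu ^ 1 * x ^ 4)
         + (1 * uu ^ 2) + (-2 * uu ^ 2 * x ^ 2) + (3 * uu ^ 2 * x ^ 3)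
         + (4 * uu ^ 3 * x ^ 2) + (-1 * uu ^ 3 * x ^ 3) + (2 * uu ^ 3 * x ^ 4)
         + (-2 * uu ^ 4 * x ^ 2) + (-2 * uu ^ 5 * x ^ 4) + (1 * uu ^ 6 * x ^ 4)) * huu
    rw [e1, e2, zero_smul, zero_add]
  · rw [pair h x i uu uu⁻¹ (by omega), hT, hT', hP, hP', d2, d3]
    unfold wF wT
    congr 1
    · congr 1
      linear_combination ((3) + (-1 * x ^ 1) + (-2 * x ^ 3) + (2 * x ^ 4) + (1 * uu ^ 1)
         + (-2 * uu ^ 1 * x ^ 1) + (3 * uu ^ 1 * x ^ 2) + (-1 * uu ^ 1 * x ^ 3)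
         + (2 * uu ^ 1 * x ^ 4) + (-1 * uu ^ 2) + (2 * uu ^ 2 * x ^ 1)
         + (-1 * uu ^ 2 * x ^ 2) + (-1 * uu ^ 2 * x ^ 3) + (1 * uu ^ 2 * x ^ 4)
         + (-4 * uu ^ 3 * x ^ 2) + (4 * uu ^ 3 * x ^ 3) + (-5 * uu ^ 3 * x ^ 4)
         + (2 * uu ^ 4 * x ^ 2) + (-2 * uu ^ 4 * x ^ 3) + (3 * uu ^ 5 * x ^ 4)
         + (-1 * uu ^ 6 * x ^ 4)) * huu
    · congr 1
      linear_combination ((-3) + (1 * x ^ 1) + (-2 * x ^ 2) + (-3 * x ^ 4) + (-1 * uu ^ 1)
         + (2 * uu ^ 1 * x ^ 1) + (-3 * uu ^ 1 * x ^ 2) + (1 * uu ^ 1 * x ^ 3)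
         + (-3 * uu ^ 1 * x ^ 4) + (1 * uu ^ 2) + (-2 * uu ^ 2 * x ^ 1)
         + (1 * uu ^ 2 * x ^ 2) + (1 * uu ^ 2 * x ^ 3) + (4 * uu ^ 3 * x ^ 2)
         + (-4 * uu ^ 3 * x ^ 3) + (5 * uu ^ 3 * x ^ 4) + (-2 * uu ^ 4 * x ^ 2)
         + (2 * uu ^ 4 * x ^ 3) + (-3 * uu ^ 5 * x ^ 4) + (1 * uu ^ 6 * x ^ 4)) * huu

namespace ZEROaux

variable {A : Type} [Ring A] [Algebra ℂ A] {e : ℕ → A} {N : ℕ}

omit [Algebra ℂ A] in
theorem lay0_last (e : ℕ → A) (m : ℕ) : ∀ i, lay0 e i (m + 1) = lay0 e i m * e (i + 2 * m) := by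
  induction m with
  | zero =>
    intro i
    simp [lay0]
  | succ m ih =>
    intro i
    have h1 : lay0 e i (m + 1 + 1) = e i * lay0 e (i + 2) (m + 1) := rfl
    have h2 : lay0 e i (m + 1) = e i * lay0 e (i + 2) m := rfl
    rw [h1, h2, ih (i + 2), mul_assoc]
    congr 3
    ring

omit [Algebra ℂ A] in
theorem lay0_comm (h : TL e N) (i : ℕ) (m : ℕ) : ∀ j, i + 1 < j → j + 2 * m ≤ N →
    Commute (e i) (lay0 e j m) := by
  induction m with
  | zero =>
    intro j _ _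
    exact Commute.one_right _
  | succ m ih =>
    intro j hj hN
    exact Commute.mul_right (h.cm i j hj (by omega)) (ih (j + 2) (by omega) (by omega))

theorem alt_length (z : ℂ) (m : ℕ) : (alt z m).length = 2 * m := by
  induction m with
  | zero => rfl
  | succ m ih =>
    simp only [alt, List.length_cons, ih]
    ring

theorem chain_gen (h : TL e N) (x z s : ℂ)
    (hs : ∀ (i : ℕ) (L : List ℂ), i + L.length + 2 ≤ N →
      e i * DD e x i (z :: z⁻¹ :: L) = s • (e i * DD e x (i + 2) L)) (m : ℕ) :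
    ∀ i, i + 2 * m + 2 ≤ N → lay0 e i m * DD e x i (alt z (m + 1)) =
      (s ^ m) • (lay0 e i m * DD e x (i + 2 * m) [z, z⁻¹]) := by
  induction m with
  | zero =>
    intro i _
    simp [alt]
  | succ m ih =>
    intro i hi
    have h1 : lay0 e i (m + 1) = e i * lay0 e (i + 2) m := rfl
    have h2 : alt z (m + 1 + 1) = z :: z⁻¹ :: alt z (m + 1) := rfl
    have hc : e i * lay0 e (i + 2) m = lay0 e (i + 2) m * e i :=
      lay0_comm h i m (i + 2) (by omega) (by omega)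
    have h3 := ih (i + 2) (by omega)
    calc lay0 e i (m + 1) * DD e x i (alt z (m + 1 + 1))
        = lay0 e (i + 2) m * (e i * DD e x i (z :: z⁻¹ :: alt z (m + 1))) := by
          rw [h1, h2, hc, mul_assoc]
      _ = s • (lay0 e (i + 2) m * e i * DD e x (i + 2) (alt z (m + 1))) := by
          rw [hs i (alt z (m + 1)) (by rw [alt_length]; omega), mul_smul_comm, mul_assoc]
      _ = s • (e i * (lay0 e (i + 2) m * DD e x (i + 2) (alt z (m + 1)))) := by
          rw [← hc, mul_assoc]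
      _ = _ := by
          rw [h3, mul_smul_comm, smul_smul, ← mul_assoc, ← h1]
          have e1 : i + 2 + 2 * m = i + 2 * (m + 1) := by ring
          rw [e1, pow_succ']

end ZEROaux

theorem cl_chain (_hc : S_comm) (h0 : S_zero) (hf : S_fuse) : S_chain := by
  intro A _ _ e n hn h hlay
  obtain ⟨m, rfl⟩ : ∃ m, n = m + 1 := ⟨n - 1, by omega⟩
  have hl : lay0 e 0 m * e (2 * m) = 0 := by
    have h1 := lay0_last e m 0
    rw [zero_add] at h1
    rw [← h1]
    exact hlay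
  constructor
  · intro z
    have h1 := chain_gen h 0 z 1 (fun i L hi => by
      rw [one_smul]
      exact (h0 A e _ h i L z z⁻¹ hi).1) m 0 (by omega)
    have h2 := (h0 A e _ h (2 * m) [] z z⁻¹ (by simp; omega)).2
    rw [Nat.add_sub_cancel, h1, zero_add, h2, mul_add, mul_smul_comm, mul_smul_comm, hl, one_pow,
      one_smul, smul_zero, add_zero, mul_one]
  · intro x
    have h1 := chain_gen h x uu ((1 + x + x ^ 2) ^ 2) (fun i L hi =>
      (hf A e _ h x i L hi).1) m 0 (by omega)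
    have h2 := (hf A e _ h x (2 * m) [] (by simp; omega)).2
    rw [Nat.add_sub_cancel, h1, zero_add, h2, mul_add, mul_smul_comm, mul_smul_comm, hl,
      smul_zero, add_zero, mul_one, smul_smul]
    congr 1
    have e1 : 2 * (m + 1) - 1 = 2 * m + 1 := by omega
    rw [e1]
    generalize 1 + x + x ^ 2 = s
    rw [← pow_mul]
    ring

end W96CL
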